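import Pool.Agent.V1153.XS.Mv2
import Pool.Agent.V1153.UG.Six

/-!
The maps given by sums of products of polynomials and exponentials of entire functions in a fixed
variety.
-/

set_option autoImplicit false

namespace Pool.Agent.V1153.XS

open MvPolynomial Pool.Agent.V1153.UG

variable {n : ℕ}

/-- `g` is a vector of functions on `ℂ^k` with nonconstant quotients, each a sum of `r` products of a
polynomial of degree at most `d` and the exponential of an entire function, and the homogeneous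
coordinates given by `g` define a map to the complement of `Q = 0` in the projective variety with the
ideal `I`. -/
structure ExpMap (k r d : ℕ) (I : Ideal (MvPolynomial (Fin (n + 1)) ℂ))
    (Q : MvPolynomial (Fin (n + 1)) ℂ) (g : (Fin k → ℂ) → Fin (n + 1) → ℂ) : Prop where
  exp : ∀ j, ExpSum k r d fun z => g z j
  mem : ∀ z, ∀ F ∈ I, (∃ m, F.IsHomogeneous m) → eval (g z) F = 0
  off : ∀ z, eval (g z) Q ≠ 0
  nc : ∃ z w j l, g z j * g w l ≠ g z l * g w j

/-- For all `r` and `d` the images of the maps from all affine spaces, given by sums of `r` products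
of a polynomial of degree at most `d` and the exponential of an entire function, are contained in one
proper closed subset of `X`. -/
def ExpThin (I : Ideal (MvPolynomial (Fin (n + 1)) ℂ)) (Q : MvPolynomial (Fin (n + 1)) ℂ) : Prop :=
  ∀ r d : ℕ, ∃ G : MvPolynomial (Fin (n + 1)) ℂ, (∃ m, G.IsHomogeneous m) ∧ G ∉ I ∧
    ∀ k g, ExpMap k r d I Q g → ∀ z, eval (g z) G = 0

/-- the homogeneous part of an ideal is generated by elements of bounded degree -/
theorem exists_gens (I : Ideal (MvPolynomial (Fin (n + 1)) ℂ)) {q : ℕ}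
    {Q : MvPolynomial (Fin (n + 1)) ℂ} (hQ : Q.IsHomogeneous q) :
    ∃ (D : ℕ) (E : Set (MvPolynomial (Fin (n + 1)) ℂ)), DegLe D E Q ∧
      (∀ F ∈ E, F ∈ I ∧ ∃ m, F.IsHomogeneous m) ∧
      ∀ F ∈ I, (∃ m, F.IsHomogeneous m) → F ∈ Ideal.span E := by
  classical
  set S : Set (MvPolynomial (Fin (n + 1)) ℂ) := {F | F ∈ I ∧ ∃ m, F.IsHomogeneous m} with hS
  have hfg : (Ideal.span S).FG := (isNoetherianRing_iff_ideal_fg _).1 inferInstance _
  obtain ⟨T, hT, hTS⟩ := (Submodule.fg_span_iff_fg_span_finset_subset S).1 hfg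
  have h1 : ∀ F ∈ T, ∃ m, F.IsHomogeneous m := fun F hF => (hT hF).2
  have h2 : ∀ F : MvPolynomial (Fin (n + 1)) ℂ, ∃ m, F ∈ T → F.IsHomogeneous m := by
    intro F
    by_cases hF : F ∈ T
    · obtain ⟨m, hm⟩ := h1 F hF
      exact ⟨m, fun _ => hm⟩
    · exact ⟨0, fun h => absurd h hF⟩
  choose m hm using h2
  refine ⟨T.sup m + q, T, ⟨fun F hF => ⟨m F, ?_, hm F hF⟩, q, by omega, hQ⟩, fun F hF => hT hF,
    fun F hF hFh => ?_⟩
  · exact (Finset.le_sup (f := m) hF).trans (Nat.le_add_right _ _)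
  · have h3 : F ∈ Submodule.span (MvPolynomial (Fin (n + 1)) ℂ) S := Ideal.subset_span ⟨hF, hFh⟩
    rw [hTS] at h3
    exact h3

/-- curves of the punctured line in a fixed variety -/
theorem exp_point (I : Ideal (MvPolynomial (Fin (n + 1)) ℂ)) {q : ℕ}
    {Q : MvPolynomial (Fin (n + 1)) ℂ} (hQ : Q.IsHomogeneous q) (r d : ℕ) :
    ∃ N, ∀ k g, ExpMap k r d I Q g → ∀ z, g z ≠ 0 →
      ∃ P, GmBdd I Q N P ∧ (fun j => (P j).eval 1) = g z := by
  obtain ⟨D, E, hE, hEI, hIE⟩ := exists_gens I hQ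
  obtain ⟨N, hN⟩ := map_point2 n D r d
  refine ⟨N, fun k g hg z hz => ?_⟩
  obtain ⟨P, hP, hP1⟩ := hN E Q hE k g hg.exp
    (fun z F hF => hg.mem z F (hEI F hF).1 (hEI F hF).2) hg.off hg.nc z hz
  exact ⟨P, ⟨hP.deg, fun F hF hFh => hP.mem F (hIE F hF hFh) hFh, hP.off, hP.nc⟩, hP1⟩

theorem expThin_of_gmThin {I : Ideal (MvPolynomial (Fin (n + 1)) ℂ)} {q : ℕ}
    {Q : MvPolynomial (Fin (n + 1)) ℂ} (hQ : Q.IsHomogeneous q) (h : GmThin I Q) :
    ExpThin I Q := by
  intro r d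
  obtain ⟨N, hN⟩ := exp_point I hQ r d
  obtain ⟨G, hGh, hG, hall⟩ := h N
  refine ⟨G, hGh, hG, fun k g hg z => ?_⟩
  have h1 : ∀ x, g x ≠ 0 → eval (g x) G = 0 := by
    intro x hx
    obtain ⟨P, hP, hP1⟩ := hN k g hg x hx
    rw [← hP1]
    exact hall P hP 1
  by_cases hz : g z = 0
  · obtain ⟨z', w, j, l, hne⟩ := hg.nc
    obtain ⟨x, hx⟩ : ∃ x, g x ≠ 0 := by
      by_contra h0
      push Not at h0
      apply hne
      rw [h0 z', h0 w]
      rfl
    obtain ⟨m, hm⟩ := hGh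
    have h2 := h1 x hx
    have h3 := eval_homog hm 0 (g x)
    rw [h2, mul_zero] at h3
    rw [hz]
    have h4 : (0 : Fin (n + 1) → ℂ) = fun j => 0 * g x j := by
      funext j
      rw [zero_mul]
      rfl
    rw [h4]
    exact h3
  · exact h1 z hz

/-- The nonconstant entire curves whose homogeneous coordinates are sums of `r` functions
`a exp (b z)` are, for each `r`, contained in one proper closed subset of `X`. -/
def LinThin (I : Ideal (MvPolynomial (Fin (n + 1)) ℂ)) (Q : MvPolynomial (Fin (n + 1)) ℂ) : Prop :=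
  ∀ r : ℕ, ∃ G : MvPolynomial (Fin (n + 1)) ℂ, (∃ m, G.IsHomogeneous m) ∧ G ∉ I ∧
    ∀ f, Curve I Q f → (∀ j, ∃ a b : Fin r → ℂ, ∀ z, f z j = ∑ i, a i * Complex.exp (b i * z)) →
      ∀ z, eval (f z) G = 0

theorem linThin_of_expThin {I : Ideal (MvPolynomial (Fin (n + 1)) ℂ)}
    {Q : MvPolynomial (Fin (n + 1)) ℂ} (h : ExpThin I Q) : LinThin I Q := by
  intro r
  obtain ⟨G, h1, h2, h3⟩ := h r 0
  refine ⟨G, h1, h2, fun f hf hab z => ?_⟩
  have h4 := h3 1 (fun z => f (z 0)) ⟨fun j => ?_, fun z => hf.mem _, fun z => hf.off _, ?_⟩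
    (fun _ => z)
  · exact h4
  · obtain ⟨a, b, hab⟩ := hab j
    refine ⟨fun i => C (a i), fun i z => b i * z 0, fun i => ⟨by rw [totalDegree_C],
      (differentiable_apply 0).const_mul _⟩, fun z => ?_⟩
    refine (hab (z 0)).trans (Finset.sum_congr rfl fun i _ => ?_)
    rw [eval_C]
  · obtain ⟨z, w, j, k, hne⟩ := hf.nc
    exact ⟨fun _ => z, fun _ => w, j, k, hne⟩

theorem gmThin_of_linThin {I : Ideal (MvPolynomial (Fin (n + 1)) ℂ)} {d0 : ℕ}
    {Q : MvPolynomial (Fin (n + 1)) ℂ} (hQ : Q.IsHomogeneous d0) (h : LinThin I Q) :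
    GmThin I Q := by
  intro N
  obtain ⟨G, hGh, hG, hall⟩ := h (N + 1)
  refine ⟨G, hGh, hG, ?_⟩
  intro P hP t
  obtain ⟨m, hm⟩ := hGh
  obtain ⟨g, P', hg, hPP, hpr⟩ := hP.prim hQ
  refine vanish_P hPP hm (fun t ht => ?_) t
  have h1 := hall (fun z j => (P' j).eval (Complex.exp z)) ⟨?_, ?_, ?_, ?_, ?_⟩ ?_ (Complex.log t)
  · simp only [Complex.exp_log ht] at h1
    exact h1
  · exact fun j => (P' j).differentiable.comp Complex.differentiable_exp
  · intro z h0
    obtain ⟨j, hj⟩ := hpr.ne (Complex.exp z)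
    exact hj (congrFun h0 j)
  · exact fun z F hF hFh => hpr.mem _ F hF hFh
  · exact fun z => hpr.off _ (Complex.exp_ne_zero z)
  · obtain ⟨s, t, j, k, hs, ht, hst⟩ := hpr.nc
    refine ⟨Complex.log s, Complex.log t, j, k, ?_⟩
    simp only [Complex.exp_log ht, Complex.exp_log hs]
    exact hst
  · intro j
    refine ⟨fun i => (P' j).coeff i, fun i => (i : ℕ), fun z => ?_⟩
    have hdeg : (P' j).natDegree < N + 1 := by
      by_cases h0 : P' j = 0
      · rw [h0, Polynomial.natDegree_zero]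
        exact Nat.succ_pos _
      · have h1 := hP.deg j
        rw [hPP j, Polynomial.natDegree_mul hg h0] at h1
        omega
    rw [Polynomial.eval_eq_sum_range' hdeg,
      ← Fin.sum_univ_eq_sum_range (fun i => (P' j).coeff i * Complex.exp z ^ i)]
    refine Finset.sum_congr rfl fun i _ => ?_
    rw [← Complex.exp_nat_mul]

/-- **Equivalences.** -/
theorem exp_tfae {I : Ideal (MvPolynomial (Fin (n + 1)) ℂ)} (hI : I.IsPrime)
    {Q : MvPolynomial (Fin (n + 1)) ℂ} {d0 : ℕ} (hQ : Q.IsHomogeneous d0) :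
    List.TFAE [¬ GmRuled I Q, LinThin I Q, ExpThin I Q] := by
  tfae_have 1 → 3 := fun h => expThin_of_gmThin hQ (thin_of_not_ruled hI hQ h)
  tfae_have 3 → 2 := linThin_of_expThin
  tfae_have 2 → 1 := fun h => not_ruled_of_thin (gmThin_of_linThin hQ h)
  tfae_finish

end Pool.Agent.V1153.XS
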