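import Pool.Agent.V1153.XS.Orb

/-!
Orbifold maps with large multiplicities that are given by sums of products of polynomials and
exponentials of entire functions.
-/

set_option autoImplicit false

namespace Pool.Agent.V1153.XS

open MvPolynomial Pool.Agent.V1153.UG

variable {n : ℕ}

/-- several variables -/
theorem pow_unit_mv {D r e q k : ℕ} {Q : MvPolynomial (Fin (n + 1)) ℂ}
    (hQ : Q.IsHomogeneous q) (hq : q ≤ D) {f : (Fin k → ℂ) → Fin (n + 1) → ℂ}
    (hf : ∀ j, ExpSum k r e fun z => f z j) {h : (Fin k → ℂ) → ℂ} (hh : Differentiable ℂ h) {m : ℕ}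
    (hm : ((D + 1) ^ ((n + 1) * (r * (e + 1)))) ^ 2 ≤ m)
    (heq : ∀ z, eval (f z) Q = h z ^ m) (hne : ∃ z, h z ≠ 0) : ∀ z, h z ≠ 0 := by
  classical
  intro x
  obtain ⟨y, hy⟩ := hne
  choose p g hpg hfe using hf
  let φ : ℂ → Fin k → ℂ := fun z => x + z • (y - x)
  have hφ : Differentiable ℂ φ := (differentiable_const _).add (differentiable_id.smul_const _)
  have hφ0 : φ 0 = x := by simp [φ]
  have hφ1 : φ 1 = y := by simp [φ]
  let a : Fin k → Polynomial ℂ := fun i =>
    Polynomial.C (x i) + Polynomial.X * Polynomial.C (y i - x i)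
  have ha : ∀ z, (fun i => (a i).eval z) = φ z := by
    intro z
    funext i
    simp [a, φ]
  have h1 := pow_unit_one hQ hq (fun j i => aeval a (p j i)) (fun j i z => g j i (φ z)) (e := e)
    (fun j i => by
      have h1 := MvPolynomial.aeval_natDegree_le (p j i) (hpg j i).1 a (n := 1) (fun i => by
        refine (Polynomial.natDegree_add_le _ _).trans (max_le ?_ ?_)
        · rw [Polynomial.natDegree_C]
          exact Nat.zero_le _
        · refine Polynomial.natDegree_mul_le.trans ?_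
          rw [Polynomial.natDegree_C, Polynomial.natDegree_X])
      rwa [mul_one] at h1)
    (fun j i => ((hpg j i).2).comp hφ) (h := fun z => h (φ z)) (hh.comp hφ) hm
    (fun z => by
      rw [← heq]
      congr 2
      funext j
      refine Eq.trans ?_ (hfe j (φ z)).symm
      refine Finset.sum_congr rfl fun i _ => ?_
      congr 1
      have h1 : (aeval a (p j i)).eval z = eval (fun i => (a i).eval z) (p j i) := by
        rw [← Polynomial.coe_evalRingHom, aeval_def, ← MvPolynomial.coe_eval₂Hom]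
        have h2 : (Polynomial.evalRingHom z).comp (eval₂Hom (algebraMap ℂ (Polynomial ℂ)) a)
            = (eval fun i => (a i).eval z : MvPolynomial (Fin k) ℂ →+* ℂ) := by
          apply ringHom_ext
          · intro c
            simp
          · intro j
            simp
        exact congrArg (fun φ : MvPolynomial (Fin k) ℂ →+* ℂ => φ (p j i)) h2
      rw [h1, ha])
    ⟨1, by simp only [hφ1]; exact hy⟩ 0
  simp only [hφ0] at h1
  exact h1

/-- **Orbifold maps with large multiplicities.** -/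
theorem orb (n s D r e : ℕ) : ∃ m₀ N : ℕ, ∀ (E : Set (MvPolynomial (Fin (n + 1)) ℂ))
    (Q : Fin s → MvPolynomial (Fin (n + 1)) ℂ), (∀ F ∈ E, ∃ a ≤ D, F.IsHomogeneous a) →
    (∀ l, ∃ a ≤ D, (Q l).IsHomogeneous a) → ∀ (k : ℕ) (f : (Fin k → ℂ) → Fin (n + 1) → ℂ),
    (∀ j, ExpSum k r e fun z => f z j) → (∀ z, ∀ F ∈ E, eval (f z) F = 0) →
    (∃ z w j l, f z j * f w l ≠ f z l * f w j) →
    ∀ (m : Fin s → ℕ) (h : Fin s → (Fin k → ℂ) → ℂ), (∀ l, m₀ ≤ m l) →
    (∀ l, Differentiable ℂ (h l)) → (∀ l, ∃ z, h l z ≠ 0) →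
    (∀ l z, eval (f z) (Q l) = h l z ^ m l) →
    (∀ l z, eval (f z) (Q l) ≠ 0) ∧ ∀ z, f z ≠ 0 →
      ∃ P, GmBdd (Ideal.span E) (∏ l, Q l) N P ∧ (fun j => (P j).eval 1) = f z := by
  classical
  obtain ⟨N, hN⟩ := map_point2 n ((s + 1) * D) r e
  refine ⟨((D + 1) ^ ((n + 1) * (r * (e + 1)))) ^ 2, N, fun E Q hE hQ k f hf hmem hnc m h hm hh
    hne heq => ?_⟩
  have h1 : ∀ l z, eval (f z) (Q l) ≠ 0 := by
    intro l z
    obtain ⟨q, hq, hQq⟩ := hQ l
    rw [heq]
    exact pow_ne_zero _ (pow_unit_mv hQq hq hf (hh l) (hm l) (heq l) (hne l) z)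
  refine ⟨h1, ?_⟩
  choose q hq hQq using hQ
  refine hN E (∏ l, Q l) ⟨fun F hF => ?_, ∑ l, q l, ?_, IsHomogeneous.prod _ _ _ fun l _ => hQq l⟩
    k f hf hmem (fun z => ?_) hnc
  · obtain ⟨a, ha, hFa⟩ := hE F hF
    exact ⟨a, ha.trans (Nat.le_mul_of_pos_left _ (Nat.succ_pos _)), hFa⟩
  · refine (Finset.sum_le_card_nsmul _ _ D fun l _ => hq l).trans ?_
    rw [Finset.card_univ, Fintype.card_fin, smul_eq_mul]
    exact Nat.mul_le_mul_right _ (Nat.le_succ _)
  · rw [map_prod]
    exact Finset.prod_ne_zero_iff.2 fun l _ => h1 l z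

end Pool.Agent.V1153.XS
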