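import Pool.Agent.V1153.XS.Cur
import Pool.Agent.V1153.UG.Grw

/-!
Curves of the punctured line of bounded degree through every point of an entire curve that is given
by sums of products of polynomials and exponentials of entire functions; the homogeneous coordinates
may have common zeros.
-/

set_option autoImplicit false

namespace Pool.Agent.V1153.XS

open MvPolynomial Pool.Agent.V1153.UG

/-- **The curves of the punctured line through the points of an entire curve.** -/
theorem point2 (n D r d : ℕ) : ∃ N, ∀ (E : Set (MvPolynomial (Fin (n + 1)) ℂ))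
    (Q : MvPolynomial (Fin (n + 1)) ℂ), DegLe D E Q →
    ∀ (p : Fin (n + 1) → Fin r → Polynomial ℂ) (g : Fin (n + 1) → Fin r → ℂ → ℂ),
    (∀ j i, (p j i).natDegree ≤ d) → (∀ j i, Differentiable ℂ (g j i)) →
    ∀ f : ℂ → Fin (n + 1) → ℂ, (∀ z j, f z j = ∑ i, (p j i).eval z * Complex.exp (g j i z)) →
    (∀ z, ∀ F ∈ E, eval (f z) F = 0) → (∀ z, eval (f z) Q ≠ 0) →
    (∃ z w j k, f z j * f w k ≠ f z k * f w j) →
    ∀ z₀, f z₀ ≠ 0 → ∃ P, GmBdd (Ideal.span E) Q N P ∧ (fun j => (P j).eval 1) = f z₀ := by
  classical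
  obtain ⟨M, hM⟩ := sep_fun (Option (Fin (n + 1) × Fin r)) (D + 1)
  refine ⟨d + 2 * M, fun E Q hE p g hp hg f hfe hmem hoff hncf z₀ hz₀ => ?_⟩
  obtain ⟨q, hq, hQ⟩ := hE.off
  have hfd : ∀ j, Differentiable ℂ fun z => f z j := by
    intro j
    have h1 : (fun z => f z j) = fun z => ∑ i, (p j i).eval z * Complex.exp (g j i z) :=
      funext fun z => hfe z j
    rw [h1]
    apply Differentiable.fun_sum
    intro i _
    exact (p j i).differentiable.mul (hg j i).cexp
  -- the logarithm of `Q(f)`
  have hdQ : Differentiable ℂ fun z => eval (f z) Q := by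
    have h1 : (fun z => eval (f z) Q)
        = fun z => ∑ u ∈ Q.support, coeff u Q * ∏ i, f z i ^ u i := by
      funext z
      rw [eval_eq']
    rw [h1]
    apply Differentiable.fun_sum
    intro u _
    apply Differentiable.const_mul
    apply Differentiable.fun_finsetProd
    intro i _
    exact (hfd i).pow _
  obtain ⟨G, hG, hGQ⟩ := Pool.Agent.W603.BP.entire_log hdQ hoff
  let g' : Option (Fin (n + 1) × Fin r) → ℂ → ℂ := fun a => a.elim G fun a => g a.1 a.2
  have hg' : ∀ a, Differentiable ℂ (g' a) := by
    rintro (_ | a)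
    · exact hG
    · exact hg a.1 a.2
  obtain ⟨μ, hμM, hμ, hμs⟩ := hM g'
  -- the specialisation
  let e : Fin (n + 1) → Fin r → Option (Fin (n + 1) × Fin r) := fun j i => some (j, i)
  have hspec : ∀ (t : ℂ), t ≠ 0 → ∀ (w : ℂ) (R : MvPolynomial (Option (Fin (n + 1) × Fin r))
      (Polynomial ℂ)), (∀ α ∈ R.support, ∀ a, α a ≤ D + 1) →
      (∀ z, eval₂ (Polynomial.evalRingHom z) (fun a => Complex.exp (g' a z)) R = 0) →
      eval₂ (Polynomial.evalRingHom w) (fun a => Complex.exp (g' a z₀) * t ^ μ a) R = 0 := by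
    intro t ht w R hR h0
    refine core g' hg' _ w R (fun α hα β hβ c hc => ?_) h0
    rw [prod_tau _ _ ht, prod_tau _ _ ht, hc z₀, hμ α β (hR α hα) (hR β hβ) c hc, Complex.exp_add]
    ring
  let Φ : ℂ → ℂ → Fin (n + 1) → ℂ := fun t w j =>
    ∑ i, (p j i).eval w * (Complex.exp (g j i z₀) * t ^ μ (e j i))
  have hF : ∀ F ∈ E, ∀ t, t ≠ 0 → ∀ w, eval (Φ t w) F = 0 := by
    intro F hFE t ht w
    obtain ⟨a, ha, hFh⟩ := hE.eqs F hFE
    have h1 := hspec t ht w (subst e p F) (fun α hα b =>
      (le_of_homog (subst_homog e p hFh) hα b).trans (by omega)) (fun z => by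
        rw [eval_subst]
        have h2 := hmem z F hFE
        have h3 : f z = fun j => ∑ i, (p j i).eval z * Complex.exp (g' (e j i) z) :=
          funext (hfe z)
        rw [← h3]
        exact h2)
    rw [eval_subst] at h1
    exact h1
  have hQe : ∀ t, t ≠ 0 → ∀ w, eval (Φ t w) Q = Complex.exp (G z₀) * t ^ μ none := by
    intro t ht w
    have h1 := hspec t ht w (subst e p Q - X none) (fun α hα b => by
        rcases Finset.mem_union.1 (support_sub _ _ _ hα) with h2 | h2
        · exact (le_of_homog (subst_homog e p hQ) h2 b).trans (by omega)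
        · exact (le_of_homog (isHomogeneous_X _ _) h2 b).trans (by omega)) (fun z => by
        rw [eval₂_sub, eval_subst, eval₂_X, sub_eq_zero]
        have h3 : f z = fun j => ∑ i, (p j i).eval z * Complex.exp (g' (e j i) z) :=
          funext (hfe z)
        rw [← h3]
        exact hGQ z)
    rw [eval₂_sub, eval_subst, eval₂_X, sub_eq_zero] at h1
    exact h1
  -- the polynomials
  let m : Option (Fin (n + 1) × Fin r) → ℕ := fun a => (μ a + M).toNat
  have hm : ∀ a, (m a : ℤ) = μ a + M := fun a =>
    Int.toNat_of_nonneg (by have := (abs_le.1 (hμM a)).1; omega)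
  let P : ℂ → Fin (n + 1) → Polynomial ℂ := fun l j =>
    ∑ i, (p j i).comp (Polynomial.C z₀ + Polynomial.C l * (Polynomial.X - Polynomial.C 1)) *
      (Polynomial.C (Complex.exp (g j i z₀)) * Polynomial.X ^ m (e j i))
  have hPe0 : ∀ l t j, (P l j).eval t = ∑ i, (p j i).eval (z₀ + l * (t - 1)) *
      (Complex.exp (g j i z₀) * t ^ m (e j i)) := by
    intro l t j
    simp only [P]
    rw [Polynomial.eval_finsetSum]
    refine Finset.sum_congr rfl fun i _ => ?_
    simp only [Polynomial.eval_mul, Polynomial.eval_comp, Polynomial.eval_add, Polynomial.eval_C,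
      Polynomial.eval_sub, Polynomial.eval_X, Polynomial.eval_pow]
  have hPe : ∀ l t, t ≠ 0 → (fun j => (P l j).eval t)
      = fun j => t ^ M * Φ t (z₀ + l * (t - 1)) j := by
    intro l t ht
    funext j
    rw [hPe0]
    simp only [Φ]
    rw [Finset.mul_sum]
    refine Finset.sum_congr rfl fun i _ => ?_
    have h1 : t ^ m (e j i) = t ^ M * t ^ μ (e j i) := by
      rw [← zpow_natCast t (m (e j i)), hm, add_comm, zpow_add₀ ht, zpow_natCast]
    rw [h1]
    ring
  have hP1 : ∀ l, (fun j => (P l j).eval 1) = f z₀ := by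
    intro l
    funext j
    rw [hPe0, hfe]
    refine Finset.sum_congr rfl fun i _ => ?_
    rw [sub_self, mul_zero, add_zero, one_pow, mul_one]
  -- the curve is nonconstant for some `l`
  have hnc : ∃ l, ∃ s t j k, (P l j).eval s * (P l k).eval t ≠ (P l k).eval s * (P l j).eval t := by
    by_contra hcon
    push Not at hcon
    have h1 : ∀ z j k, f z₀ j * f z k = f z₀ k * f z j := by
      intro z j k
      let S : Fin (n + 1) → Polynomial ℂ := fun j => ∑ i,
        Polynomial.C ((p j i).eval z * Complex.exp (g j i z₀)) * Polynomial.X ^ m (e j i)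
      have hS : ∀ t j, (S j).eval t
          = ∑ i, (p j i).eval z * (Complex.exp (g j i z₀) * t ^ m (e j i)) := by
        intro t j
        simp only [S]
        rw [Polynomial.eval_finsetSum]
        refine Finset.sum_congr rfl fun i _ => ?_
        rw [Polynomial.eval_mul, Polynomial.eval_C, Polynomial.eval_pow, Polynomial.eval_X]
        ring
      have h2 : f z₀ j • S k - f z₀ k • S j = 0 := by
        refine poly_zero fun t _ ht1 => ?_
        have ht1' : t - 1 ≠ 0 := sub_ne_zero.2 ht1
        have h3 := hcon ((z - z₀) / (t - 1)) 1 t j k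
        have h4 : ∀ j, (P ((z - z₀) / (t - 1)) j).eval 1 = f z₀ j :=
          fun j => congrFun (hP1 ((z - z₀) / (t - 1))) j
        rw [h4 j, h4 k, hPe0, hPe0, div_mul_cancel₀ _ ht1', add_sub_cancel] at h3
        rw [Polynomial.eval_sub, Polynomial.eval_smul, Polynomial.eval_smul, hS, hS, smul_eq_mul,
          smul_eq_mul, h3, sub_self]
      obtain ⟨L, hL⟩ := lin_fun m (fun a => Complex.exp (g' a z - g' a z₀)) (fun a b hab => by
        obtain ⟨c, hc⟩ := hμs a b (by
          have h5 := hm a
          have h6 := hm b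
          rw [hab] at h5
          omega)
        rw [hc z, hc z₀]
        congr 1
        ring)
      have hLS : ∀ j, L (S j) = f z j := by
        intro j
        simp only [S]
        rw [map_sum, hfe]
        refine Finset.sum_congr rfl fun i _ => ?_
        rw [hL, mul_assoc, ← Complex.exp_add]
        congr 2
        change g j i z₀ + (g j i z - g j i z₀) = g j i z
        ring
      have h7 := congrArg L h2
      rw [map_sub, map_smul, map_smul, hLS, hLS, map_zero, smul_eq_mul, smul_eq_mul,
        sub_eq_zero] at h7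
      exact h7
    obtain ⟨z, w, j, k, hzw⟩ := hncf
    obtain ⟨l, hl⟩ : ∃ l, f z₀ l ≠ 0 := by
      by_contra h0
      push Not at h0
      exact hz₀ (funext h0)
    apply hzw
    have h2 := h1 z l j
    have h3 := h1 z l k
    have h4 := h1 w l j
    have h5 := h1 w l k
    apply mul_left_cancel₀ hl
    apply mul_left_cancel₀ hl
    calc f z₀ l * (f z₀ l * (f z j * f w k)) = (f z₀ l * f z j) * (f z₀ l * f w k) := by ring
      _ = (f z₀ j * f z l) * (f z₀ k * f w l) := by rw [h2, h5]
      _ = (f z₀ k * f z l) * (f z₀ j * f w l) := by ring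
      _ = (f z₀ l * f z k) * (f z₀ l * f w j) := by rw [h3, h4]
      _ = f z₀ l * (f z₀ l * (f z k * f w j)) := by ring
  obtain ⟨l, hl⟩ := hnc
  refine ⟨P l, ⟨fun j => ?_, fun F hFI _ => ?_, ?_, hl⟩, hP1 l⟩
  · -- the degree
    refine Polynomial.natDegree_sum_le_of_forall_le _ _ fun i _ => ?_
    refine Polynomial.natDegree_mul_le.trans (add_le_add ?_ ?_)
    · refine Polynomial.natDegree_comp_le.trans ?_
      calc (p j i).natDegree * _ ≤ d * 1 := Nat.mul_le_mul (hp j i) ?_
        _ = d := mul_one d
      refine (Polynomial.natDegree_add_le _ _).trans (max_le ?_ ?_)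
      · rw [Polynomial.natDegree_C]
        exact Nat.zero_le _
      · refine Polynomial.natDegree_mul_le.trans ?_
        rw [Polynomial.natDegree_C, zero_add]
        exact Polynomial.natDegree_X_sub_C_le 1
    · refine Polynomial.natDegree_mul_le.trans ?_
      rw [Polynomial.natDegree_C, zero_add, Polynomial.natDegree_X_pow]
      have h1 := hm (e j i)
      have h2 := (abs_le.1 (hμM (e j i))).2
      omega
  · -- the equations
    have h1 : Ideal.span E ≤ RingHom.ker (aeval (P l) : MvPolynomial (Fin (n + 1)) ℂ →ₐ[ℂ]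
        Polynomial ℂ) := by
      rw [Ideal.span_le]
      intro F hFE
      change aeval (P l) F = 0
      obtain ⟨a, ha, hFh⟩ := hE.eqs F hFE
      refine poly_zero fun t ht _ => ?_
      rw [eval_aeval, hPe l t ht, eval_homog hFh, hF F hFE t ht, mul_zero]
    exact h1 hFI
  · -- the complement
    obtain ⟨k, hk⟩ := poly_mono (q := aeval (P l) Q) (Complex.exp_ne_zero (G z₀))
      (e := (M * q : ℕ) + μ none) (fun t ht => by
        rw [eval_aeval, hPe l t ht, eval_homog hQ, hQe t ht, zpow_add₀ ht, zpow_natCast, ← pow_mul]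
        ring)
    exact ⟨_, k, Complex.exp_ne_zero _, hk⟩

end Pool.Agent.V1153.XS
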