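import Pool.Agent.V1153.XS.Mv
import Pool.Agent.V1153.XS.Pt2

/-!
Meromorphic maps from the affine space that are given by sums of products of polynomials and
exponentials of entire functions.
-/

set_option autoImplicit false

namespace Pool.Agent.V1153.XS

open MvPolynomial Pool.Agent.V1153.UG

variable {n : ℕ}

/-- **Curves of the punctured line through the points of the images of maps given by sums of products
of polynomials and exponentials of entire functions.** -/
theorem map_point2 (n D r d : ℕ) : ∃ N, ∀ (E : Set (MvPolynomial (Fin (n + 1)) ℂ))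
    (Q : MvPolynomial (Fin (n + 1)) ℂ), DegLe D E Q → ∀ (k : ℕ) (f : (Fin k → ℂ) → Fin (n + 1) → ℂ),
    (∀ j, ExpSum k r d fun z => f z j) → (∀ z, ∀ F ∈ E, eval (f z) F = 0) →
    (∀ z, eval (f z) Q ≠ 0) → (∃ z w j l, f z j * f w l ≠ f z l * f w j) →
    ∀ z, f z ≠ 0 → ∃ P, GmBdd (Ideal.span E) Q N P ∧ (fun j => (P j).eval 1) = f z := by
  classical
  obtain ⟨N, hN⟩ := point2 n D r d
  refine ⟨N, fun E Q hE k f he hmem hoff hncf x hx => ?_⟩
  obtain ⟨y, j₀, l₀, hy⟩ : ∃ y j l, f x j * f y l ≠ f x l * f y j := by
    by_contra hcon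
    push Not at hcon
    obtain ⟨z, w, j, k, hzw⟩ := hncf
    obtain ⟨l, hl⟩ : ∃ l, f x l ≠ 0 := by
      by_contra h0
      push Not at h0
      exact hx (funext h0)
    apply hzw
    apply mul_left_cancel₀ hl
    apply mul_left_cancel₀ hl
    calc f x l * (f x l * (f z j * f w k)) = (f x l * f z j) * (f x l * f w k) := by ring
      _ = (f x j * f z l) * (f x k * f w l) := by rw [hcon z l j, hcon w l k]
      _ = (f x k * f z l) * (f x j * f w l) := by ring
      _ = (f x l * f z k) * (f x l * f w j) := by rw [hcon z l k, hcon w l j]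
      _ = f x l * (f x l * (f z k * f w j)) := by ring
  choose p g hpg hfe using he
  let φ : ℂ → Fin k → ℂ := fun z => x + z • (y - x)
  have hφ : Differentiable ℂ φ := (differentiable_const _).add (differentiable_id.smul_const _)
  have hφ0 : φ 0 = x := by simp [φ]
  have hφ1 : φ 1 = y := by simp [φ]
  let a : Fin k → Polynomial ℂ := fun i =>
    Polynomial.C (x i) + Polynomial.X * Polynomial.C (y i - x i)
  have ha : ∀ z, (fun i => (a i).eval z) = φ z := by
    intro z
    funext i
    simp [a, φ]
  obtain ⟨P, hP, hP1⟩ := hN E Q hE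
    (fun j i => aeval a (p j i)) (fun j i z => g j i (φ z))
    (fun j i => by
      have h1 := MvPolynomial.aeval_natDegree_le (p j i) (hpg j i).1 a (n := 1) (fun i => by
        refine (Polynomial.natDegree_add_le _ _).trans (max_le ?_ ?_)
        · rw [Polynomial.natDegree_C]
          exact Nat.zero_le _
        · refine Polynomial.natDegree_mul_le.trans ?_
          rw [Polynomial.natDegree_C, Polynomial.natDegree_X])
      rwa [mul_one] at h1)
    (fun j i => ((hpg j i).2).comp hφ) (fun z => f (φ z))
    (fun z j => by
      refine (hfe j (φ z)).trans ?_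
      refine Finset.sum_congr rfl fun i _ => ?_
      congr 1
      have h1 : (aeval a (p j i)).eval z = eval (fun i => (a i).eval z) (p j i) := by
        rw [← Polynomial.coe_evalRingHom, aeval_def, ← MvPolynomial.coe_eval₂Hom]
        have h2 : (Polynomial.evalRingHom z).comp (eval₂Hom (algebraMap ℂ (Polynomial ℂ)) a)
            = (eval fun i => (a i).eval z : MvPolynomial (Fin k) ℂ →+* ℂ) := by
          apply ringHom_ext
          · intro c
            simp
          · intro j
            simp
        exact congrArg (fun φ : MvPolynomial (Fin k) ℂ →+* ℂ => φ (p j i)) h2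
      rw [h1, ha])
    (fun z => hmem _) (fun z => hoff _) ⟨0, 1, j₀, l₀, by simp only [hφ0, hφ1]; exact hy⟩
    0 (by simp only [hφ0]; exact hx)
  refine ⟨P, hP, ?_⟩
  rw [hP1]
  simp only [hφ0]

end Pool.Agent.V1153.XS
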