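import Pool.Agent.H159R3.Exp.Borel

/-!
Polynomial relations with polynomial coefficients between exponentials of entire functions.
-/

set_option autoImplicit false

namespace Pool.Agent.V1153.XS

open MvPolynomial Pool.Agent.H159R3.Exp Pool.Agent.H159R3.NV

theorem borel_on {ι : Type} [DecidableEq ι] (S : Finset ι) (G : ι → ℂ → ℂ)
    (hG : ∀ i ∈ S, Differentiable ℂ (G i)) (x : ι → ℂ)
    (hx : ∀ i ∈ S, ∀ j ∈ S, ∀ c : ℂ, (∀ z, G i z = G j z + c) → x i = Complex.exp c * x j)
    (c : ι → ℂ) (h : ∀ z, ∑ i ∈ S, c i * Complex.exp (G i z) = 0) :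
    ∑ i ∈ S, c i * x i = 0 := by
  classical
  have h1 := borel_spec (B := ℂ) (ι := {i // i ∈ S}) (fun i => G i.1) (fun i => hG i.1 i.2)
    (fun i => x i.1) (fun i j c hc => hx i.1 i.2 j.1 j.2 c hc) Finset.univ (fun i => c i.1)
    (fun z => by
      rw [← h z, Finset.univ_eq_attach]
      exact Finset.sum_attach S fun i => c i * Complex.exp (G i z))
  rw [Finset.univ_eq_attach] at h1
  rw [← Finset.sum_attach S fun i => c i * x i]
  exact h1

/-- Every polynomial relation with polynomial coefficients between exponentials of entire functions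
is a consequence of the multiplicative relations between the monomials that occur in it. -/
theorem core {A : Type} [Fintype A] [DecidableEq A] (g : A → ℂ → ℂ)
    (hg : ∀ a, Differentiable ℂ (g a)) (τ : A → ℂ) (z' : ℂ) (Q : MvPolynomial A (Polynomial ℂ))
    (hτ : ∀ α ∈ Q.support, ∀ β ∈ Q.support, ∀ c : ℂ,
      (∀ z, ∑ a, (α a : ℂ) * g a z = ∑ a, (β a : ℂ) * g a z + c) →
      ∏ a, τ a ^ α a = Complex.exp c * ∏ a, τ a ^ β a)
    (hQ : ∀ z, eval₂ (Polynomial.evalRingHom z) (fun a => Complex.exp (g a z)) Q = 0) :
    eval₂ (Polynomial.evalRingHom z') τ Q = 0 := by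
  classical
  set K : ℕ := Q.support.sup (fun α => (coeff α Q).natDegree) + 1 with hK
  have hdeg : ∀ α ∈ Q.support, (coeff α Q).natDegree < K := fun α hα =>
    Nat.lt_succ_of_le (Finset.le_sup (f := fun α => (coeff α Q).natDegree) hα)
  have hexp : ∀ (w : ℂ) (σ : A → ℂ), eval₂ (Polynomial.evalRingHom w) σ Q
      = ∑ i ∈ Q.support ×ˢ Finset.range K, (coeff i.1 Q).coeff i.2 * (w ^ i.2 * ∏ a, σ a ^ i.1 a) := by
    intro w σ
    rw [eval₂_eq', Finset.sum_product]
    refine Finset.sum_congr rfl fun α hα => ?_
    rw [Polynomial.coe_evalRingHom, Polynomial.eval_eq_sum_range' (hdeg α hα), Finset.sum_mul]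
    refine Finset.sum_congr rfl fun k _ => ?_
    ring
  have h1 := borel_on (Q.support ×ˢ Finset.range K)
    (fun i ζ => (i.2 : ℂ) * ζ + ∑ a, (i.1 a : ℂ) * g a (Complex.exp ζ))
    (fun i _ => by
      apply Differentiable.add (differentiable_id.const_mul _)
      apply Differentiable.fun_sum
      intro a _
      exact ((hg a).comp Complex.differentiable_exp).const_mul _)
    (fun i => z' ^ i.2 * ∏ a, τ a ^ i.1 a)
    (fun i hi j hj c h => by
      rw [Finset.mem_product] at hi hj
      have h2 : (i.2 : ℂ) = (j.2 : ℂ) := by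
        have h3 := h 0
        have h4 := h (0 + 2 * Real.pi * Complex.I)
        simp only [Complex.exp_periodic 0] at h4
        have h5 : (2 * Real.pi * Complex.I : ℂ) ≠ 0 := Complex.two_pi_I_ne_zero
        apply mul_right_cancel₀ h5
        linear_combination h4 - h3
      have h2' : i.2 = j.2 := by exact_mod_cast h2
      have h6 : ∀ z, (∑ a, (i.1 a : ℂ) * g a z) - (∑ a, (j.1 a : ℂ) * g a z + c) = 0 := by
        apply zero_of_punctured
        · apply Differentiable.sub
          · apply Differentiable.fun_sum
            intro a _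
            exact (hg a).const_mul _
          · apply Differentiable.add_const
            apply Differentiable.fun_sum
            intro a _
            exact (hg a).const_mul _
        · intro w hw
          have h8 := h (Complex.log w)
          simp only [Complex.exp_log hw] at h8
          linear_combination h8 - Complex.log w * h2
      have h7 := hτ i.1 hi.1 j.1 hj.1 c (fun z => sub_eq_zero.mp (h6 z))
      rw [h2', h7]
      ring)
    (fun i => (coeff i.1 Q).coeff i.2)
    (fun ζ => by
      rw [← hQ (Complex.exp ζ), hexp]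
      refine Finset.sum_congr rfl fun i _ => ?_
      congr 1
      rw [Complex.exp_add, Complex.exp_nat_mul, Complex.exp_sum]
      congr 1
      refine Finset.prod_congr rfl fun a _ => ?_
      rw [Complex.exp_nat_mul])
  rw [hexp]
  exact h1

end Pool.Agent.V1153.XS
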