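import Mathlib

/-!
Integral vectors of bounded size with given linear relations of bounded size.
-/

set_option autoImplicit false

namespace Pool.Agent.V1153.XS

/-- An integral linear functional that separates finitely many elements. -/
theorem sep {V : Type*} [AddCommGroup V] [Module ℚ V] {A : Type} [Fintype A] [DecidableEq A]
    (γ : A → V) :
    ∃ μ : A → ℤ, (∀ m : A → ℤ, ∑ a, m a • γ a = 0 → ∑ a, m a * μ a = 0) ∧
      ∀ a b, γ a ≠ γ b → μ a ≠ μ b := by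
  obtain ⟨φ, hφ⟩ := Module.exists_dual_forall_apply_ne_zero (K := ℚ)
    (ι := {p : A × A // γ p.1 ≠ γ p.2}) (fun p => γ p.1.1 - γ p.1.2) (fun p => sub_ne_zero.2 p.2)
  set q : ℕ := ∏ a, (φ (γ a)).den with hq
  have hq0 : (q : ℚ) ≠ 0 := by
    have : q ≠ 0 := Finset.prod_ne_zero_iff.2 fun a _ => (φ (γ a)).den_nz
    exact_mod_cast this
  have hint : ∀ a, ∃ k : ℤ, (k : ℚ) = q * φ (γ a) := by
    intro a
    obtain ⟨e, he⟩ := Finset.dvd_prod_of_mem (fun a => (φ (γ a)).den) (Finset.mem_univ a)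
    refine ⟨e * (φ (γ a)).num, ?_⟩
    have h1 : (φ (γ a)) * ((φ (γ a)).den : ℚ) = (φ (γ a)).num := Rat.mul_den_eq_num _
    rw [hq, he]
    push_cast
    rw [← h1]
    ring
  choose μ hμ using hint
  refine ⟨μ, fun m hm => ?_, fun a b hab h => ?_⟩
  · have h1 : φ (∑ a, m a • γ a) = 0 := by rw [hm, map_zero]
    rw [map_sum] at h1
    have h2 : ((∑ a, m a * μ a : ℤ) : ℚ) = q * ∑ a, φ (m a • γ a) := by
      push_cast
      rw [Finset.mul_sum]
      refine Finset.sum_congr rfl fun a _ => ?_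
      rw [map_zsmul, hμ, zsmul_eq_mul]
      ring
    rw [h1, mul_zero] at h2
    exact_mod_cast h2
  · have h1 := hφ ⟨(a, b), hab⟩
    apply h1
    rw [map_sub]
    have h2 : (q : ℚ) * φ (γ a) = q * φ (γ b) := by rw [← hμ, ← hμ, h]
    rw [mul_left_cancel₀ hq0 h2, sub_self]

/-- For given `A` and `D` the integral vector can be chosen with bounded entries if only relations
with coefficients at most `D` are to be kept. -/
theorem sep_bdd (A : Type) [Fintype A] [DecidableEq A] (D : ℕ) : ∃ M : ℕ, ∀ (V : Type)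
    [AddCommGroup V] [Module ℚ V] (γ : A → V), ∃ μ : A → ℤ, (∀ a, |μ a| ≤ M) ∧
      (∀ m : A → ℤ, (∀ a, |m a| ≤ D) → ∑ a, m a • γ a = 0 → ∑ a, m a * μ a = 0) ∧
      ∀ a b, γ a ≠ γ b → μ a ≠ μ b := by
  classical
  -- the relations are indexed by functions to a finite interval
  let T : Type := (A → Finset.Icc (-(D : ℤ)) D)
  have key : ∀ c : Set T × Set (A × A), ∃ M : ℕ, ∀ (V : Type)
      [AddCommGroup V] [Module ℚ V] (γ : A → V), c.1 = {m | ∑ a, (m a : ℤ) • γ a = 0} →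
      c.2 = {p | γ p.1 ≠ γ p.2} → ∃ μ : A → ℤ, (∀ a, |μ a| ≤ M) ∧
      (∀ m : A → ℤ, (∀ a, |m a| ≤ D) → ∑ a, m a • γ a = 0 → ∑ a, m a * μ a = 0) ∧
      ∀ a b, γ a ≠ γ b → μ a ≠ μ b := by
    intro c
    by_cases hex : ∃ μ : A → ℤ, (∀ m ∈ c.1, ∑ a, (m a : ℤ) * μ a = 0) ∧
      ∀ p ∈ c.2, μ p.1 ≠ μ p.2
    · obtain ⟨μ, h1, h2⟩ := hex
      refine ⟨∑ a, (μ a).natAbs, fun V _ _ γ hc1 hc2 => ⟨μ, fun a => ?_, fun m hm h0 => ?_,
        fun a b hab => ?_⟩⟩
      · rw [← Int.natCast_natAbs]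
        exact_mod_cast Finset.single_le_sum (f := fun a => (μ a).natAbs) (fun _ _ => Nat.zero_le _)
          (Finset.mem_univ a)
      · have h3 := h1 (fun a => ⟨m a, Finset.mem_Icc.2 (abs_le.1 (hm a))⟩) (by
          rw [hc1]
          exact h0)
        exact h3
      · exact h2 (a, b) (by rw [hc2]; exact hab)
    · refine ⟨0, fun V _ _ γ hc1 hc2 => absurd ?_ hex⟩
      obtain ⟨μ, h1, h2⟩ := sep γ
      refine ⟨μ, fun m hm => h1 _ ?_, fun p hp => h2 _ _ ?_⟩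
      · rw [hc1] at hm
        exact hm
      · rw [hc2] at hp
        exact hp
  choose M hM using key
  refine ⟨Finset.univ.sup M, fun V _ _ γ => ?_⟩
  obtain ⟨μ, h1, h2⟩ := hM ({m | ∑ a, (m a : ℤ) • γ a = 0}, {p | γ p.1 ≠ γ p.2}) V γ rfl rfl
  refine ⟨μ, fun a => (h1 a).trans ?_, h2⟩
  exact_mod_cast Finset.le_sup (f := M) (Finset.mem_univ _)

end Pool.Agent.V1153.XS
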