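import Pool.Agent.V1153.UG.UnfC
import Pool.Agent.V1153.XS.Bor
import Pool.Agent.V1153.XS.Sep

/-!
Curves of the punctured line through the points of an entire curve that is given by sums of products
of polynomials and exponentials of entire functions.
-/

set_option autoImplicit false

namespace Pool.Agent.V1153.XS

open MvPolynomial Pool.Agent.V1153.UG

/-! ### Separation of entire functions modulo constants -/

/-- the constant functions -/
def cst : Submodule ℂ (ℂ → ℂ) where
  carrier := {f | ∃ c, ∀ z, f z = c}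
  add_mem' := by
    rintro f g ⟨c, hc⟩ ⟨d, hd⟩
    exact ⟨c + d, fun z => by rw [Pi.add_apply, hc, hd]⟩
  zero_mem' := ⟨0, fun _ => rfl⟩
  smul_mem' := by
    rintro a f ⟨c, hc⟩
    exact ⟨a * c, fun z => by rw [Pi.smul_apply, hc, smul_eq_mul]⟩

theorem sep_fun (A : Type) [Fintype A] [DecidableEq A] (D : ℕ) : ∃ M : ℕ, ∀ g : A → ℂ → ℂ,
    ∃ μ : A → ℤ, (∀ a, |μ a| ≤ M) ∧
      (∀ α β : A → ℕ, (∀ a, α a ≤ D) → (∀ a, β a ≤ D) → ∀ c : ℂ,
        (∀ z, ∑ a, (α a : ℂ) * g a z = ∑ a, (β a : ℂ) * g a z + c) →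
        ∑ a, (α a : ℤ) * μ a = ∑ a, (β a : ℤ) * μ a) ∧
      ∀ a b, μ a = μ b → ∃ c : ℂ, ∀ z, g a z = g b z + c := by
  obtain ⟨M, hM⟩ := sep_bdd A D
  refine ⟨M, fun g => ?_⟩
  obtain ⟨μ, h1, h2, h3⟩ := hM ((ℂ → ℂ) ⧸ cst) fun a => cst.mkQ (g a)
  refine ⟨μ, h1, fun α β hα hβ c hc => ?_, fun a b hab => ?_⟩
  · have h4 := h2 (fun a => (α a : ℤ) - β a) (fun a => by
      have := hα a
      have := hβ a
      rw [abs_le]
      constructor <;> omega) (by
      have h5 : ∑ a, ((α a : ℤ) - β a) • cst.mkQ (g a)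
          = cst.mkQ (∑ a, ((α a : ℤ) - β a) • g a) := by
        rw [map_sum]
        refine Finset.sum_congr rfl fun a _ => ?_
        rw [map_zsmul]
      rw [h5, Submodule.mkQ_apply, Submodule.Quotient.mk_eq_zero]
      refine ⟨c, fun z => ?_⟩
      have h6 := hc z
      rw [Finset.sum_apply]
      have h7 : ∑ a, (((α a : ℤ) - β a) • g a) z
          = ∑ a, (α a : ℂ) * g a z - ∑ a, (β a : ℂ) * g a z := by
        rw [← Finset.sum_sub_distrib]
        refine Finset.sum_congr rfl fun a _ => ?_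
        rw [Pi.smul_apply, zsmul_eq_mul]
        push_cast
        ring
      rw [h7, h6]
      ring)
    rw [← sub_eq_zero, ← Finset.sum_sub_distrib]
    rw [← h4]
    refine Finset.sum_congr rfl fun a _ => ?_
    ring
  · by_contra hcon
    refine h3 a b (fun h => hcon ?_) hab
    rw [Submodule.mkQ_apply, Submodule.mkQ_apply, Submodule.Quotient.eq] at h
    obtain ⟨c, hc⟩ := h
    refine ⟨c, fun z => ?_⟩
    have := hc z
    rw [Pi.sub_apply] at this
    linear_combination this

/-! ### Substitution -/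

variable {n r : ℕ} {B : Type}

/-- substitution of linear forms with polynomial coefficients -/
noncomputable def subst (e : Fin (n + 1) → Fin r → B) (p : Fin (n + 1) → Fin r → Polynomial ℂ)
    (F : MvPolynomial (Fin (n + 1)) ℂ) : MvPolynomial B (Polynomial ℂ) :=
  eval₂ (C.comp Polynomial.C) (fun j => ∑ i, C (p j i) * X (e j i)) F

theorem eval_subst (e : Fin (n + 1) → Fin r → B) (p : Fin (n + 1) → Fin r → Polynomial ℂ)
    (F : MvPolynomial (Fin (n + 1)) ℂ) (w : ℂ) (σ : B → ℂ) :
    eval₂ (Polynomial.evalRingHom w) σ (subst e p F)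
      = eval (fun j => ∑ i, (p j i).eval w * σ (e j i)) F := by
  have h : (eval₂Hom (Polynomial.evalRingHom w) σ).comp
      (eval₂Hom (C.comp Polynomial.C) fun j => ∑ i, C (p j i) * X (e j i))
      = (eval fun j => ∑ i, (p j i).eval w * σ (e j i) : MvPolynomial (Fin (n + 1)) ℂ →+* ℂ) := by
    apply ringHom_ext
    · intro c
      simp
    · intro j
      simp
  exact congrArg (fun φ : MvPolynomial (Fin (n + 1)) ℂ →+* ℂ => φ F) h

theorem subst_homog (e : Fin (n + 1) → Fin r → B) (p : Fin (n + 1) → Fin r → Polynomial ℂ)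
    {F : MvPolynomial (Fin (n + 1)) ℂ} {a : ℕ} (hF : F.IsHomogeneous a) :
    (subst e p F).IsHomogeneous a := by
  have h := hF.eval₂ (C.comp Polynomial.C)
    (fun j => ∑ i, C (p j i) * X (e j i) : Fin (n + 1) → MvPolynomial B (Polynomial ℂ)) (n := 1)
    (fun c => by
      rw [RingHom.comp_apply]
      exact isHomogeneous_C _ _)
    (fun j => by
      apply IsHomogeneous.sum
      intro i _
      have := (isHomogeneous_C B (p j i)).mul (isHomogeneous_X (Polynomial ℂ) (e j i))
      rwa [zero_add] at this)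
  rw [one_mul] at h
  exact h

theorem le_of_homog {R : Type} [CommRing R] {F : MvPolynomial B R} {a : ℕ}
    (hF : F.IsHomogeneous a) {α : B →₀ ℕ} (hα : α ∈ F.support) (b : B) : α b ≤ a := by
  classical
  have h2 := hF (mem_support_iff.1 hα)
  rw [← h2, Finsupp.weight_apply, Finsupp.sum]
  simp only [Pi.one_apply, smul_eq_mul, mul_one]
  by_cases hb : b ∈ α.support
  · exact Finset.single_le_sum (f := fun b => α b) (fun _ _ => Nat.zero_le _) hb
  · rw [Finsupp.notMem_support_iff.1 hb]
    exact Nat.zero_le _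

theorem prod_tau {A : Type} [Fintype A] (x : A → ℂ) (μ : A → ℤ) {t : ℂ} (ht : t ≠ 0)
    (α : A → ℕ) : ∏ a, (Complex.exp (x a) * t ^ μ a) ^ α a
      = Complex.exp (∑ a, (α a : ℂ) * x a) * t ^ (∑ a, (α a : ℤ) * μ a) := by
  classical
  rw [Complex.exp_sum]
  have h1 : ∀ S : Finset A, t ^ (∑ a ∈ S, (α a : ℤ) * μ a) = ∏ a ∈ S, (t ^ μ a) ^ α a := by
    intro S
    induction S using Finset.induction_on with
    | empty => simp
    | insert a S ha ih =>
      rw [Finset.sum_insert ha, Finset.prod_insert ha, zpow_add₀ ht, ih, mul_comm (α a : ℤ),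
        zpow_mul, zpow_natCast]
  rw [h1, ← Finset.prod_mul_distrib]
  refine Finset.prod_congr rfl fun a _ => ?_
  rw [mul_pow, Complex.exp_nat_mul]

/-! ### Polynomials of one variable -/

theorem poly_zero {q : Polynomial ℂ} (h : ∀ t, t ≠ 0 → t ≠ 1 → q.eval t = 0) : q = 0 := by
  have h1 : Polynomial.X * (Polynomial.X - Polynomial.C 1) * q = 0 := by
    apply Polynomial.funext
    intro t
    rw [Polynomial.eval_mul, Polynomial.eval_mul, Polynomial.eval_X, Polynomial.eval_sub,
      Polynomial.eval_X, Polynomial.eval_C, Polynomial.eval_zero]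
    by_cases h0 : t = 0
    · rw [h0, zero_mul, zero_mul]
    · by_cases h2 : t = 1
      · rw [h2, sub_self, mul_zero, zero_mul]
      · rw [h t h0 h2, mul_zero]
  rcases mul_eq_zero.1 h1 with h2 | h2
  · rcases mul_eq_zero.1 h2 with h3 | h3
    · exact absurd h3 Polynomial.X_ne_zero
    · exact absurd h3 (Polynomial.X_sub_C_ne_zero 1)
  · exact h2

theorem poly_mono {q : Polynomial ℂ} {c : ℂ} (hc : c ≠ 0) {e : ℤ}
    (h : ∀ t, t ≠ 0 → q.eval t = c * t ^ e) :
    ∃ k : ℕ, q = Polynomial.C c * Polynomial.X ^ k := by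
  rcases Int.eq_nat_or_neg e with ⟨k, rfl | rfl⟩
  · refine ⟨k, sub_eq_zero.1 (poly_zero fun t ht _ => ?_)⟩
    rw [Polynomial.eval_sub, h t ht, Polynomial.eval_mul, Polynomial.eval_C, Polynomial.eval_pow,
      Polynomial.eval_X, zpow_natCast, sub_self]
  · rcases Nat.eq_zero_or_pos k with rfl | hk
    · refine ⟨0, sub_eq_zero.1 (poly_zero fun t ht _ => ?_)⟩
      rw [Polynomial.eval_sub, h t ht]
      simp
    · exfalso
      have h1 : q * Polynomial.X ^ k - Polynomial.C c = 0 := by
        refine poly_zero fun t ht _ => ?_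
        rw [Polynomial.eval_sub, Polynomial.eval_mul, h t ht, Polynomial.eval_C,
          Polynomial.eval_pow, Polynomial.eval_X, zpow_neg, zpow_natCast, mul_assoc,
          inv_mul_cancel₀ (pow_ne_zero _ ht), mul_one, sub_self]
      have h2 := congrArg (Polynomial.eval 0) h1
      rw [Polynomial.eval_sub, Polynomial.eval_mul, Polynomial.eval_C, Polynomial.eval_pow,
        Polynomial.eval_X, zero_pow hk.ne', mul_zero, zero_sub, Polynomial.eval_zero] at h2
      exact hc (neg_eq_zero.1 h2)

/-- a linear functional on polynomials with prescribed values at finitely many monomials -/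
theorem lin_fun {A : Type} (m : A → ℕ) (u : A → ℂ) (h : ∀ a b, m a = m b → u a = u b) :
    ∃ L : Polynomial ℂ →ₗ[ℂ] ℂ, ∀ a (c : ℂ), L (Polynomial.C c * Polynomial.X ^ m a) = c * u a := by
  classical
  refine ⟨(Polynomial.basisMonomials ℂ).constr ℂ (Function.extend m u 0), fun a c => ?_⟩
  have h1 : Polynomial.C c * Polynomial.X ^ m a = c • (Polynomial.basisMonomials ℂ (m a)) := by
    rw [Polynomial.coe_basisMonomials, Polynomial.smul_eq_C_mul]
    exact congrArg _ (Polynomial.X_pow_eq_monomial _)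
  rw [h1, map_smul, Module.Basis.constr_basis, smul_eq_mul]
  congr 1
  exact Function.FactorsThrough.extend_apply (fun a b hab => h a b hab) _ _

end Pool.Agent.V1153.XS
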