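import Pool.Agent.V1153.XS.Mv2

/-!
Powers that are values of forms at sums of products of polynomials and exponentials of entire
functions.
-/

set_option autoImplicit false

namespace Pool.Agent.V1153.XS

open MvPolynomial Pool.Agent.V1153.UG Pool.Agent.H159R3.Exp Pool.Agent.H159R3.NV

/-- A power with a large exponent which is a sum of few exponentials of entire functions has no
zeros. -/
theorem pow_unit {ι : Type} [DecidableEq ι] (G : ι → ℂ → ℂ) {h : ℂ → ℂ} (hh : Differentiable ℂ h)
    {m : ℕ} (hne : ∃ z, h z ≠ 0) :
    ∀ S : Finset ι, (∀ i ∈ S, Differentiable ℂ (G i)) → S.card ^ 2 ≤ m → ∀ c : ι → ℂ,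
      (∀ z, ∑ i ∈ S, c i * Complex.exp (G i z) = h z ^ m) → ∀ z, h z ≠ 0 := by
  intro S
  induction S using Finset.strongInduction with
  | H S ih =>
    intro hG hm c hc
    by_cases hp : ∃ i ∈ S, ∃ j ∈ S, i ≠ j ∧ ∃ a : ℂ, ∀ z, G i z = G j z + a
    · obtain ⟨i, hi, j, hj, hij, a, ha⟩ := hp
      let c' : ι → ℂ := Function.update c j (c j + c i * Complex.exp a)
      have hjS : j ∈ S.erase i := Finset.mem_erase.mpr ⟨hij.symm, hj⟩
      have e1 : ∀ (y : ι → ℂ), ∑ k ∈ (S.erase i).erase j, c' k * y k
            = ∑ k ∈ (S.erase i).erase j, c k * y k := by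
        intro y
        refine Finset.sum_congr rfl fun k hk => ?_
        have hkj : k ≠ j := (Finset.mem_erase.mp hk).1
        simp only [c', Function.update_of_ne hkj]
      refine ih (S.erase i) (Finset.erase_ssubset hi)
        (fun k hk => hG k (Finset.mem_of_mem_erase hk)) ?_ c' ?_
      · exact (Nat.pow_le_pow_left (Finset.card_le_card (Finset.erase_subset _ _)) 2).trans hm
      · intro w
        rw [← hc w, ← Finset.add_sum_erase S _ hi, ← Finset.add_sum_erase (S.erase i) _ hjS,
          ← Finset.add_sum_erase (S.erase i) (fun k => c k * Complex.exp (G k w)) hjS,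
          e1 (fun k => Complex.exp (G k w))]
        simp only [c', Function.update_self]
        rw [ha w, Complex.exp_add]
        ring
    · push Not at hp
      intro z₀ hz₀
      obtain ⟨z₁, hz₁⟩ := hne
      have hSne : S.Nonempty := by
        rw [Finset.nonempty_iff_ne_empty]
        rintro rfl
        have h1 := hc z₁
        rw [Finset.sum_empty] at h1
        exact pow_ne_zero m hz₁ h1.symm
      have hm0 : m ≠ 0 := by
        have h1 := Finset.card_pos.2 hSne
        have h2 : 0 < S.card ^ 2 := by positivity
        omega
      have hm0' : (m : ℂ) ≠ 0 := by exact_mod_cast hm0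
      let f : Option ι → ℂ → ℂ := fun o => o.elim h fun i z =>
        if i ∈ S then Complex.exp (G i z / m) else 0
      have hfS : ∀ i ∈ S, f (some i) = fun z => Complex.exp (G i z / m) := by
        intro i hi
        funext z
        simp only [f, Option.elim_some, if_pos hi]
      have hfd : ∀ o, Differentiable ℂ (f o) := by
        rintro (_ | i)
        · exact hh
        · by_cases hi : i ∈ S
          · rw [hfS i hi]
            exact ((hG i hi).div_const _).cexp
          · have h1 : f (some i) = fun _ => 0 := by
              funext z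
              simp only [f, Option.elim_some, if_neg hi]
            rw [h1]
            exact differentiable_const _
      have h1 := powers_independent (s := S.card + 1) (N := m) (by simpa using hm) f hfd
        (Finset.insertNone S) (by rw [Finset.card_insertNone])
        (by
          rintro (_ | i) hi
          · exact ⟨z₁, hz₁⟩
          · have hiS := Finset.some_mem_insertNone.1 hi
            refine ⟨0, ?_⟩
            rw [hfS i hiS]
            exact Complex.exp_ne_zero _)
        (by
          rintro (_ | i) hi (_ | j) hj hij a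
          · exact absurd rfl hij
          · have hjS := Finset.some_mem_insertNone.1 hj
            by_contra hcon
            push Not at hcon
            have h2 : ∀ z, h z = a * Complex.exp (G j z / m) := by
              intro z
              have h3 := hcon z
              rw [hfS j hjS] at h3
              exact sub_eq_zero.1 h3
            have h3 := h2 z₀
            rw [hz₀] at h3
            have h4 : a = 0 := (mul_eq_zero.1 h3.symm).resolve_right (Complex.exp_ne_zero _)
            apply hz₁
            rw [h2, h4, zero_mul]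
          · have hiS := Finset.some_mem_insertNone.1 hi
            refine ⟨z₀, ?_⟩
            rw [hfS i hiS]
            change Complex.exp (G i z₀ / m) - a * h z₀ ≠ 0
            rw [hz₀, mul_zero, sub_zero]
            exact Complex.exp_ne_zero _
          · have hiS := Finset.some_mem_insertNone.1 hi
            have hjS := Finset.some_mem_insertNone.1 hj
            have hij' : i ≠ j := fun h => hij (congrArg some h)
            by_contra hcon
            push Not at hcon
            have h2 : ∀ z, Complex.exp ((G i z - G j z) / m) = a := by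
              intro z
              have h3 := hcon z
              rw [hfS i hiS, hfS j hjS] at h3
              rw [sub_div, Complex.exp_sub, div_eq_iff (Complex.exp_ne_zero _)]
              exact sub_eq_zero.mp h3
            have h4 := const_of_exp (((hG i hiS).sub (hG j hjS)).div_const (m : ℂ)) h2
            obtain ⟨w, hw⟩ := hp i hiS j hjS hij' (G i 0 - G j 0)
            apply hw
            have h5 := h4 w 0
            simp only [Pi.sub_apply] at h5
            rw [div_left_inj' hm0'] at h5
            linear_combination h5)
        (fun o => o.elim (-1) c) (by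
          intro z
          rw [Finset.sum_insertNone]
          simp only [Option.elim_none, Option.elim_some]
          have h3 : ∑ i ∈ S, c i * f (some i) z ^ m = h z ^ m := by
            rw [← hc z]
            refine Finset.sum_congr rfl fun i hi => ?_
            rw [hfS i hi, ← Complex.exp_nat_mul, mul_div_cancel₀ _ hm0']
          rw [h3]
          change -1 * h z ^ m + h z ^ m = 0
          ring)
        none Finset.none_mem_insertNone
      exact absurd h1 (by simp)

variable {n : ℕ}

/-- the number of monomials of a form -/
theorem card_support_le {A : Type} [Fintype A] {F : MvPolynomial A ℂ} {q D : ℕ}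
    (hF : F.IsHomogeneous q) (hq : q ≤ D) : F.support.card ≤ (D + 1) ^ Fintype.card A := by
  classical
  have h1 : F.support.card ≤ Fintype.card (A → Fin (D + 1)) := by
    refine Finset.card_le_card_of_injOn (t := Finset.univ)
      (fun α a => ⟨min (α a) D, by omega⟩) (fun _ _ => Finset.mem_univ _) ?_
    intro α hα β hβ hab
    have key : ∀ γ ∈ F.support, ∀ a, γ a ≤ D := by
      intro γ hγ a
      exact (le_of_homog hF hγ a).trans hq
    apply Finsupp.ext
    intro a
    have h2 := congrArg Fin.val (congrFun hab a)
    simp only at h2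
    rwa [min_eq_left (key α hα a), min_eq_left (key β hβ a)] at h2
  rwa [Fintype.card_fun, Fintype.card_fin] at h1

/-- one variable, after the substitution of the exponential -/
theorem pow_unit_exp {D r e q : ℕ} {Q : MvPolynomial (Fin (n + 1)) ℂ}
    (hQ : Q.IsHomogeneous q) (hq : q ≤ D) (p : Fin (n + 1) → Fin r → Polynomial ℂ)
    (g : Fin (n + 1) → Fin r → ℂ → ℂ) (hp : ∀ j i, (p j i).natDegree ≤ e)
    (hg : ∀ j i, Differentiable ℂ (g j i)) {h : ℂ → ℂ} (hh : Differentiable ℂ h) {m : ℕ}
    (hm : ((D + 1) ^ ((n + 1) * (r * (e + 1)))) ^ 2 ≤ m)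
    (heq : ∀ z, eval (fun j => ∑ i, (p j i).eval z * Complex.exp (g j i z)) Q = h z ^ m)
    (hne : ∃ z, h z ≠ 0) : ∀ z, z ≠ 0 → h z ≠ 0 := by
  classical
  let A : Type := Fin (n + 1) × (Fin r × Fin (e + 1))
  let φ : Fin (n + 1) → MvPolynomial A ℂ := fun j =>
    ∑ b : Fin r × Fin (e + 1), C ((p j b.1).coeff b.2) * X (j, b)
  have hφ : ∀ j, (φ j).IsHomogeneous 1 := by
    intro j
    apply IsHomogeneous.sum
    intro b _
    have := (isHomogeneous_C A ((p j b.1).coeff b.2)).mul (isHomogeneous_X ℂ ((j, b) : A))
    rwa [zero_add] at this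
  have hR : (aeval φ Q : MvPolynomial A ℂ).IsHomogeneous q := by
    have := hQ.aeval φ hφ
    rwa [one_mul] at this
  let γ : A → ℂ → ℂ := fun a ζ => ((a.2.2 : ℕ) : ℂ) * ζ + g a.1 a.2.1 (Complex.exp ζ)
  have hγ : ∀ a, Differentiable ℂ (γ a) := fun a =>
    (differentiable_id.const_mul _).add ((hg a.1 a.2.1).comp Complex.differentiable_exp)
  have hev : ∀ ζ, eval (fun a => Complex.exp (γ a ζ)) (aeval φ Q)
      = h (Complex.exp ζ) ^ m := by
    intro ζ
    rw [← heq]
    have h1 := comp_aeval_apply (f := φ) (aeval (fun a => Complex.exp (γ a ζ)) :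
      MvPolynomial A ℂ →ₐ[ℂ] ℂ) Q
    rw [← coe_aeval_eq_eval, ← coe_aeval_eq_eval]
    refine h1.trans ?_
    have h2 : (fun j => aeval (fun a => Complex.exp (γ a ζ)) (φ j))
        = fun j => ∑ i, (p j i).eval (Complex.exp ζ) * Complex.exp (g j i (Complex.exp ζ)) := by
      funext j
      simp only [φ, map_sum, map_mul, aeval_C, aeval_X, Algebra.algebraMap_self, RingHom.id_apply]
      rw [Fintype.sum_prod_type]
      refine Finset.sum_congr rfl fun i _ => ?_
      rw [Polynomial.eval_eq_sum_range' (Nat.lt_succ_of_le (hp j i)), Finset.sum_mul,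
        ← Fin.sum_univ_eq_sum_range (fun a => (p j i).coeff a * Complex.exp ζ ^ a *
          Complex.exp (g j i (Complex.exp ζ)))]
      refine Finset.sum_congr rfl fun a _ => ?_
      simp only [γ]
      rw [Complex.exp_add, Complex.exp_nat_mul]
      ring
    rw [h2]
    rfl
  have hd : Differentiable ℂ fun ζ => h (Complex.exp ζ) := hh.comp Complex.differentiable_exp
  have hne' : ∃ ζ, h (Complex.exp ζ) ≠ 0 := by
    by_contra hcon
    push Not at hcon
    obtain ⟨z, hz⟩ := hne
    apply hz
    apply zero_of_punctured hh
    intro w hw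
    rw [← Complex.exp_log hw]
    exact hcon _
  have key := pow_unit (ι := A →₀ ℕ) (fun α ζ => ∑ a, (α a : ℂ) * γ a ζ) hd (m := m) hne'
    (aeval φ Q : MvPolynomial A ℂ).support
    (fun α _ => Differentiable.fun_sum fun a _ => (hγ a).const_mul _)
    (by
      refine (Nat.pow_le_pow_left (card_support_le hR hq) 2).trans (le_trans (le_of_eq ?_) hm)
      congr 2
      simp only [A, Fintype.card_prod, Fintype.card_fin])
    (fun α => coeff α (aeval φ Q : MvPolynomial A ℂ))
    (fun ζ => by
      rw [← hev, eval_eq']
      refine Finset.sum_congr rfl fun α _ => ?_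
      congr 1
      rw [Complex.exp_sum]
      refine Finset.prod_congr rfl fun a _ => ?_
      rw [Complex.exp_nat_mul])
  intro z hz
  have h1 := key (Complex.log z)
  rwa [Complex.exp_log hz] at h1

/-- one variable -/
theorem pow_unit_one {D r e q : ℕ} {Q : MvPolynomial (Fin (n + 1)) ℂ}
    (hQ : Q.IsHomogeneous q) (hq : q ≤ D) (p : Fin (n + 1) → Fin r → Polynomial ℂ)
    (g : Fin (n + 1) → Fin r → ℂ → ℂ) (hp : ∀ j i, (p j i).natDegree ≤ e)
    (hg : ∀ j i, Differentiable ℂ (g j i)) {h : ℂ → ℂ} (hh : Differentiable ℂ h) {m : ℕ}
    (hm : ((D + 1) ^ ((n + 1) * (r * (e + 1)))) ^ 2 ≤ m)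
    (heq : ∀ z, eval (fun j => ∑ i, (p j i).eval z * Complex.exp (g j i z)) Q = h z ^ m)
    (hne : ∃ z, h z ≠ 0) : ∀ z, h z ≠ 0 := by
  intro z
  by_cases hz : z = 0
  · subst hz
    have h1 := pow_unit_exp hQ hq (fun j i => (p j i).comp (Polynomial.X - Polynomial.C 1))
      (fun j i z => g j i (z - 1)) (e := e) (fun j i => by
        refine Polynomial.natDegree_comp_le.trans ?_
        rw [Polynomial.natDegree_X_sub_C, mul_one]
        exact hp j i) (fun j i => (hg j i).comp (differentiable_id.sub_const 1))
      (h := fun z => h (z - 1)) (hh.comp (differentiable_id.sub_const 1)) hm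
      (fun z => by
        rw [← heq]
        simp only [Polynomial.eval_comp, Polynomial.eval_sub, Polynomial.eval_X,
          Polynomial.eval_C])
      (by
        obtain ⟨z, hz⟩ := hne
        exact ⟨z + 1, by rwa [add_sub_cancel_right]⟩) 1 one_ne_zero
    rwa [sub_self] at h1
  · exact pow_unit_exp hQ hq p g hp hg hh hm heq hne z hz

end Pool.Agent.V1153.XS
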